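import Pool.Agent.H677R3.AbFinal

/-!
# If reg (I(G) : x) ≤ r for every vertex x then reg I(G)^q ≤ 2q + r − 1 for every q ≥ 1

Definitions used (files `Pool.Agent.H677R3.RegKoszul`, `RegDeg` and `AbFinal`):
* `edgeIdeal k G` is the ideal of `k[x_0,…,x_{n-1}]` spanned by the `x_i x_j`, `i` adjacent to `j`;
* `colonX I x` is the colon ideal `{f | x f ∈ I}` of the variable `x`;
* `koszulD` is the Koszul differential of the variables; a Koszul chain assigns to every finite
  set `T` of variables the coefficient of `e_T`;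
* `TorNe J i e`: the Koszul homology `H_i(x_1,…,x_n; J) = Tor_i(J, k)` is nonzero in internal
  degree `i + e`;
* `IsReg J r`: `r` is the greatest `e` such that `TorNe J i e` for some `i`, i.e. `reg J = r`.
-/

universe u

namespace Pool.Agent.Results.MP_e6fd84_al.ColonBound

open Pool.Agent.H677R3.EdgeReg Pool.Agent.H677R3.Ab

theorem result : ∀ (k : Type u) [Field k] (n : ℕ) (G : SimpleGraph (Fin n)), (∃ u v, G.Adj u v) →
    ∀ r : ℕ, (∀ x : Fin n, ∃ t : ℕ, IsReg (colonX (edgeIdeal k G) x) t ∧ t ≤ r) →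
    ∀ q : ℕ, 1 ≤ q → ∃ s : ℕ, IsReg ((edgeIdeal k G) ^ q) s ∧ s + 1 ≤ 2 * q + r := by
  intro k _ n G hG r hr q hq
  exact colon_bound k G hG r hr q hq

end Pool.Agent.Results.MP_e6fd84_al.ColonBound
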